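import Pool.Agent.Helper89.SP.Defs
import Pool.Agent.Helper59.FA.F7
import Pool.Agent.Helper28.Slab.Vol
import Pool.Agent.Helper96.Slab.Perm

/-!
Project SP (MP_66ebcc_gt), module SP-02: existence of the maximiser with minimal sum of fourth powers.
-/

set_option autoImplicit false

open MeasureTheory Set Real Slab
open Pool.Agent.Helper88.Slab (prob)

namespace Pool.Agent.Helper89.SP

open Slab.Vol in
private theorem two_AL_le {n : ℕ} (a : Fin n → ℝ) {t : ℝ} (ht : 0 ≤ t) :
    2 * AL (List.ofFn a) H t ≤ 2 ^ n := by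
  set V : Set (Fin n → ℝ) := Neg.neg ⁻¹' (K n a t) with hV
  have hVm : MeasurableSet V := (K_meas n a t).preimage measurable_neg
  have hVK : volume V = volume (K n a t) :=
    (Measure.measurePreserving_neg (volume : Measure (Fin n → ℝ))).measure_preimage
      (K_meas n a t).nullMeasurableSet
  have hd : Disjoint (K n a t) V := by
    rw [Set.disjoint_left]
    intro x h1 h2
    have h3 : t < ∑ i, a i * x i := h1.2
    have h4 : t < ∑ i, a i * (-x) i := h2.2
    have h5 : ∑ i, a i * (-x) i = -∑ i, a i * x i := by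
      rw [← Finset.sum_neg_distrib]
      exact Finset.sum_congr rfl fun i _ => by simp
    rw [h5] at h4
    linarith
  have hsub : K n a t ∪ V ⊆ C n := by
    rintro x (h | h)
    · exact h.1
    · intro i
      have h1 : |(-x) i| ≤ 1 := h.1 i
      simpa using h1
  have h1 : volume (K n a t) + volume (K n a t) ≤ ENNReal.ofReal (2 ^ n) := by
    have h6 : volume (K n a t) + volume (K n a t) = volume (K n a t ∪ V) := by
      rw [measure_union hd hVm, hVK]
    rw [h6, ← C_vol]
    exact measure_mono hsub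
  have h2 := ENNReal.toReal_mono ENNReal.ofReal_ne_top h1
  rw [ENNReal.toReal_add (K_lt_top n a t).ne (K_lt_top n a t).ne, K_eq,
    ENNReal.toReal_ofReal (by positivity)] at h2
  linarith

private theorem T_ofFn' {n : ℕ} (a : Fin n → ℝ) {t : ℝ} (ht : 0 ≤ t) :
    T (List.ofFn a) t = 1 - prob a t := by
  have h1 := Slab.volume_slab n a t ht
  rw [Pool.Agent.Helper88.Slab.volume_slab_pi a t] at h1
  have h0 : 0 ≤ prob a t := integral_nonneg fun x => Pool.Agent.Helper88.Slab.ind_nonneg _ _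
  have h2 := congrArg ENNReal.toReal h1
  have h3 := two_AL_le a ht
  rw [ENNReal.toReal_mul, ENNReal.toReal_ofReal h0, ENNReal.toReal_ofReal (by linarith)] at h2
  simp only [ENNReal.toReal_pow, ENNReal.toReal_ofNat] at h2
  unfold T
  rw [List.length_ofFn]
  have h4 : (0 : ℝ) < 2 ^ n := by positivity
  rw [div_eq_iff h4.ne']
  linarith

private theorem T_perm' {L L' : List ℝ} (h : L.Perm L') (t : ℝ) : T L t = T L' t := by
  unfold T
  rw [AL_perm h, h.length_eq]

private theorem sq_ofFn {n : ℕ} (a : Fin n → ℝ) : sq (List.ofFn a) = ∑ i, a i ^ 2 := by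
  unfold sq
  rw [List.map_ofFn, List.sum_ofFn]
  rfl

private theorem qd_ofFn {n : ℕ} (a : Fin n → ℝ) : qd (List.ofFn a) = ∑ i, a i ^ 4 := by
  unfold qd
  rw [List.map_ofFn, List.sum_ofFn]
  rfl

private theorem sq_perm {L L' : List ℝ} (h : L.Perm L') : sq L = sq L' :=
  (h.map _).sum_eq

private theorem qd_perm {L L' : List ℝ} (h : L.Perm L') : qd L = qd L' :=
  (h.map _).sum_eq

private theorem exists_fn {n : ℕ} (L : List ℝ) (h : L.length = n) :
    ∃ a : Fin n → ℝ, List.ofFn a = L := by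
  subst h
  exact ⟨L.get, List.ofFn_get L⟩

/-- the compact set of nonnegative unit vectors -/
private def KK (n : ℕ) : Set (Fin n → ℝ) := {a | (∀ i, 0 ≤ a i) ∧ ∑ i, a i ^ 2 = 1}

private theorem KK_closed (n : ℕ) : IsClosed (KK n) := by
  have h1 : IsClosed {a : Fin n → ℝ | ∀ i, 0 ≤ a i} := by
    simp only [Set.ofPred_forall]
    exact isClosed_iInter fun i => isClosed_le continuous_const (continuous_apply i)
  have h2 : IsClosed {a : Fin n → ℝ | ∑ i, a i ^ 2 = 1} :=
    isClosed_eq (continuous_finsetSum _ fun i _ => (continuous_apply i).pow 2) continuous_const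
  exact h1.inter h2

private theorem KK_compact (n : ℕ) : IsCompact (KK n) := by
  refine IsCompact.of_isClosed_subset (isCompact_Icc : IsCompact (Set.Icc (0 : Fin n → ℝ) 1))
    (KK_closed n) ?_
  rintro a ⟨h0, h1⟩
  refine ⟨fun i => h0 i, fun i => ?_⟩
  have h2 : a i ^ 2 ≤ 1 := by
    rw [← h1]
    exact Finset.single_le_sum (f := fun i => a i ^ 2) (fun j _ => sq_nonneg (a j))
      (Finset.mem_univ i)
  have h3 := h0 i
  simp only [Pi.one_apply]
  nlinarith

private theorem prob_continuousAt {n : ℕ} {a₀ : Fin n → ℝ} (h : a₀ ∈ KK n) {t : ℝ} (ht : 0 < t) :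
    ContinuousAt (fun a : Fin n → ℝ => prob a t) a₀ := by
  obtain ⟨i, hi⟩ : ∃ i, a₀ i ≠ 0 := by
    by_contra hcon
    push Not at hcon
    have := h.2
    simp [hcon] at this
  refine Filter.tendsto_of_seq_tendsto fun a ha => ?_
  have h1 : ∀ j, Filter.Tendsto (fun k => a k j) Filter.atTop (nhds (a₀ j)) :=
    fun j => (tendsto_pi_nhds.mp ha) j
  exact Pool.Agent.Helper89.FA.prob_tendsto a a₀ h1 i hi ht

theorem exists_MaxL {n : ℕ} (hn : 1 ≤ n) {t : ℝ} (ht : 0 < t) : ∃ L, MaxL n t L := by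
  have hK := KK_compact n
  have hKne : (KK n).Nonempty := by
    refine ⟨Pi.single ⟨0, by omega⟩ 1, ?_, ?_⟩
    · intro i
      by_cases h : i = ⟨0, by omega⟩
      · subst h; simp
      · rw [Pi.single_eq_of_ne h]
    · rw [Finset.sum_eq_single (⟨0, by omega⟩ : Fin n)]
      · simp
      · intro j _ hj
        rw [Pi.single_eq_of_ne hj]
        norm_num
      · intro h
        exact absurd (Finset.mem_univ _) h
  have hcont : ContinuousOn (fun a : Fin n → ℝ => prob a t) (KK n) := fun a ha =>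
    (prob_continuousAt ha ht).continuousWithinAt
  obtain ⟨a₁, ha₁, hmin₁⟩ := hK.exists_isMinOn hKne hcont
  have hmin₁' : ∀ a ∈ KK n, prob a₁ t ≤ prob a t := fun a ha => hmin₁ ha
  have hK2c : IsClosed (KK n ∩ (fun a : Fin n → ℝ => prob a t) ⁻¹' {prob a₁ t}) :=
    hcont.preimage_isClosed_of_isClosed (KK_closed n) isClosed_singleton
  have hK2 : IsCompact (KK n ∩ (fun a : Fin n → ℝ => prob a t) ⁻¹' {prob a₁ t}) :=
    hK.of_isClosed_subset hK2c Set.inter_subset_left
  have hK2ne : (KK n ∩ (fun a : Fin n → ℝ => prob a t) ⁻¹' {prob a₁ t}).Nonempty :=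
    ⟨a₁, ha₁, rfl⟩
  have hq : Continuous fun a : Fin n → ℝ => ∑ i, a i ^ 4 :=
    continuous_finsetSum _ fun i _ => (continuous_apply i).pow 4
  obtain ⟨a, ⟨haK, hap⟩, hmin⟩ := hK2.exists_isMinOn hK2ne hq.continuousOn
  have hap' : prob a t = prob a₁ t := hap
  have hmin' : ∀ b ∈ KK n, prob b t = prob a₁ t → ∑ i, a i ^ 4 ≤ ∑ i, b i ^ 4 :=
    fun b hb hb2 => hmin ⟨hb, hb2⟩
  set L := (List.ofFn a).mergeSort (fun x y => decide (y ≤ x)) with hL
  have hperm : L.Perm (List.ofFn a) := List.mergeSort_perm _ _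
  have hKmem : ∀ b : Fin n → ℝ, (∀ x ∈ List.ofFn b, 0 ≤ x) → sq (List.ofFn b) = 1 → b ∈ KK n := by
    intro b hb hb2
    refine ⟨fun i => hb _ (by rw [List.mem_ofFn]; exact ⟨i, rfl⟩), ?_⟩
    rw [← sq_ofFn]
    exact hb2
  refine ⟨L, ?_⟩
  constructor
  · rw [hperm.length_eq, List.length_ofFn]
  · intro x hx
    have h1 := hperm.mem_iff.mp hx
    rw [List.mem_ofFn] at h1
    obtain ⟨i, rfl⟩ := h1
    exact haK.1 i
  · rw [sq_perm hperm, sq_ofFn]
    exact haK.2
  · intro L' hlen hnn hsq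
    obtain ⟨b, rfl⟩ := exists_fn L' hlen
    have hb := hKmem b hnn hsq
    rw [T_perm' hperm, T_ofFn' b ht.le, T_ofFn' a ht.le, hap']
    have := hmin₁' b hb
    linarith
  · intro L' hlen hnn hsq hT
    obtain ⟨b, rfl⟩ := exists_fn L' hlen
    have hb := hKmem b hnn hsq
    rw [T_perm' hperm, T_ofFn' b ht.le, T_ofFn' a ht.le, hap'] at hT
    rw [qd_perm hperm, qd_ofFn, qd_ofFn]
    exact hmin' b hb (by linarith)
  · have h1 := List.pairwise_mergeSort (le := fun x y : ℝ => decide (y ≤ x)) (by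
      intro x y z hxy hyz
      simp only [decide_eq_true_eq] at *
      exact hyz.trans hxy) (by
      intro x y
      simp only [Bool.or_eq_true, decide_eq_true_eq]
      exact le_total y x) (List.ofFn a)
    rw [← hL] at h1
    refine h1.imp ?_
    intro x y hxy
    simpa using hxy

end Pool.Agent.Helper89.SP
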